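import Mathlib
import Pool.Agent.H44.QuasiDefs
import Pool.Agent.H44.QuasiGam

set_option autoImplicit false
open MeasureTheory Topology Set
open Pool.Agent.H44.Quasi

namespace Pool.Agent.Results.MP_c5a4a7_gt.InfinitelyMany

/-- **Answer to Q1 (negative).**  Some nondegenerate convex polyhedron with four vertices (the
regular tetrahedron) carries infinitely many simple closed quasigeodesics through vertices; hence
there is no function `f` bounding their number in terms of the number of vertices. -/
theorem result :
    (∃ K : Set E3, IsNondegenerateConvexPolyhedron K ∧ (vertices K).ncard = 4 ∧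
      (vertexQuasigeodesics K).Infinite) ∧
    ¬ ∃ f : ℕ → ℕ, ∀ K : Set E3, IsNondegenerateConvexPolyhedron K →
      (vertexQuasigeodesics K).encard ≤ (f (vertices K).ncard : ℕ∞) := by
  refine ⟨⟨Tet, Tet_poly, vertices_card, vertexQuasigeodesics_infinite⟩, ?_⟩
  rintro ⟨f, hf⟩
  have h1 := hf Tet Tet_poly
  rw [vertexQuasigeodesics_infinite.encard_eq, top_le_iff] at h1
  exact ENat.natCast_ne_top _ h1

end Pool.Agent.Results.MP_c5a4a7_gt.InfinitelyMany
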